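import Pool.Agent.helper21.WB.Defs2
import Pool.Agent.helper26.WB.B3b
import Pool.Agent.helper19.WB.B3a

/-! WB-Z0: algebra of `so(4,1)`. -/

set_option autoImplicit false
open Matrix MeasureTheory

namespace Pool.Agent.helper21.WB

namespace Z0

theorem vmv_mulVec (a b v : I → ℝ) : Matrix.vecMulVec a (J *ᵥ b) *ᵥ v = bl b v • a := by
  ext i
  rw [bl_comm]
  simp only [Matrix.mulVec, dotProduct, Matrix.vecMulVec_apply, Pi.smul_apply, smul_eq_mul, bl]
  rw [Finset.sum_mul]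
  refine Finset.sum_congr rfl (fun j _ => ?_)
  ring

end Z0

theorem wedge_mulVec (ξ w v : I → ℝ) : wedge ξ w *ᵥ v = bl ξ v • w - bl w v • ξ := by
  rw [wedge, Matrix.sub_mulVec, Z0.vmv_mulVec, Z0.vmv_mulVec]

theorem isSo_Yg {γ : GLI} (hγ : InG γ) : IsSo (Yg γ) := by
  unfold IsSo Yg
  rw [hγ.inv_val]
  have h1 : (J * (γ.val)ᵀ * J)ᵀ = J * γ.val * J := by
    rw [Matrix.transpose_mul, Matrix.transpose_mul, Matrix.transpose_transpose, J_transpose,
      Matrix.mul_assoc]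
  rw [Matrix.transpose_smul, Matrix.transpose_sub, h1, Matrix.smul_mul, Matrix.mul_smul,
    ← smul_add, Matrix.sub_mul, Matrix.mul_sub]
  have e1 : J * γ.val * J * J = J * γ.val := by
    rw [Matrix.mul_assoc (J * γ.val), J_mul_J, Matrix.mul_one]
  have e2 : J * (J * (γ.val)ᵀ * J) = (γ.val)ᵀ * J := by
    rw [← Matrix.mul_assoc, ← Matrix.mul_assoc, J_mul_J, Matrix.one_mul]
  rw [e1, e2]
  simp

namespace Z0

/-- skew symmetry with respect to the form -/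
theorem so_skew {A : Mat} (hA : IsSo A) (v w : I → ℝ) : bl (A *ᵥ v) w = - bl v (A *ᵥ w) := by
  unfold IsSo at hA
  have h : Aᵀ * J = - (J * A) := eq_neg_of_add_eq_zero_left hA
  unfold bl
  have e1 : (A *ᵥ v) ⬝ᵥ (J *ᵥ w) = v ⬝ᵥ ((Aᵀ * J) *ᵥ w) := by
    rw [← Matrix.mulVec_mulVec, Matrix.dotProduct_mulVec v, Matrix.vecMul_transpose]
  rw [e1, h, Matrix.neg_mulVec, dotProduct_neg, Matrix.mulVec_mulVec]

theorem so_skew_self {A : Mat} (hA : IsSo A) (v : I → ℝ) : bl v (A *ᵥ v) = 0 := by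
  have h := so_skew hA v v
  rw [bl_comm] at h
  linarith

/-- null vectors orthogonal to a nonzero null vector are multiples of it -/
theorem null_prop {z x : I → ℝ} (hz : bl z z = 0) (hz0 : z o ≠ 0) (hx : bl x x = 0)
    (hxz : bl x z = 0) : x = (x o / z o) • z := by
  have h0 : bl (x - (x o / z o) • z) (x - (x o / z o) • z) = 0 := by
    rw [bl_sub_left, bl_sub_right, bl_sub_right, bl_smul_left, bl_smul_right, bl_smul_left,
      bl_smul_right, hx, hz, hxz, bl_comm z x, hxz]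
    ring
  have h1 : (x - (x o / z o) • z) o = 0 := by
    simp only [Pi.sub_apply, Pi.smul_apply, smul_eq_mul]
    field_simp
    ring
  rw [bl_apply, h1] at h0
  have h2 : ∑ i : Fin 4, (x - (x o / z o) • z) (Sum.inl i) * (x - (x o / z o) • z) (Sum.inl i) = 0 := by
    linarith
  have h3 := (Finset.sum_eq_zero_iff_of_nonneg (fun i _ => mul_self_nonneg _)).1 h2
  have h4 : x - (x o / z o) • z = 0 := by
    ext i
    rcases i with i | i
    · exact mul_self_eq_zero.1 (h3 i (Finset.mem_univ _))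
    · exact h1
  exact sub_eq_zero.1 h4

/-- a nonzero null vector has nonzero time coordinate -/
theorem null_o_ne {z : I → ℝ} (hz : bl z z = 0) (h : z ≠ 0) : z o ≠ 0 := by
  intro h1
  apply h
  rw [bl_apply, h1] at hz
  have h2 : ∑ i : Fin 4, z (Sum.inl i) * z (Sum.inl i) = 0 := by linarith
  have h3 := (Finset.sum_eq_zero_iff_of_nonneg (fun i _ => mul_self_nonneg _)).1 h2
  ext i
  rcases i with i | i
  · exact mul_self_eq_zero.1 (h3 i (Finset.mem_univ _))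
  · exact h1

end Z0

/-- the key formula: for `A ∈ so(4,1)` the norm at `y` is `4⟨Ay,Ay⟩ - tr A²` -/
theorem nrm_sq_of_so {A : Mat} (hA : IsSo A) (y : X) :
    nrm y A ^ 2 = 4 * bl (A *ᵥ lift y) (A *ᵥ lift y) - Matrix.trace (A * A) := by
  obtain ⟨g, hg, hgy⟩ := exists_bst y
  have e := nrm_act hg A
  rw [hgy] at e
  set B : Mat := (g⁻¹ : GLI).val * A * g.val with hB
  have hgi : (g⁻¹ : GLI).val * g.val = 1 := by
    rw [← Units.val_mul, inv_mul_cancel, Units.val_one]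
  have hig : g.val * (g⁻¹ : GLI).val = 1 := by
    rw [← Units.val_mul, mul_inv_cancel, Units.val_one]
  -- `B` is skew as well
  have hBso : ∀ v w, bl (B *ᵥ v) w = - bl v (B *ᵥ w) := by
    intro v w
    have eB : ∀ u, B *ᵥ u = (g⁻¹ : GLI).val *ᵥ (A *ᵥ (g.val *ᵥ u)) := by
      intro u
      rw [hB, Matrix.mulVec_mulVec, Matrix.mulVec_mulVec, Matrix.mul_assoc]
    have h1 : bl ((g⁻¹ : GLI).val *ᵥ (A *ᵥ (g.val *ᵥ v))) w
        = bl (A *ᵥ (g.val *ᵥ v)) (g.val *ᵥ w) := by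
      rw [← bl_mulVec hg.1, Matrix.mulVec_mulVec, hig, Matrix.one_mulVec]
    have h2 : bl v ((g⁻¹ : GLI).val *ᵥ (A *ᵥ (g.val *ᵥ w))) = bl (g.val *ᵥ v) (A *ᵥ (g.val *ᵥ w)) := by
      rw [← bl_mulVec hg.1 v, Matrix.mulVec_mulVec _ g.val, hig, Matrix.one_mulVec]
    rw [eB, eB, h1, h2, Z0.so_skew hA]
  have hBe : B *ᵥ lift 0 = (g⁻¹ : GLI).val *ᵥ (A *ᵥ lift y) := by
    rw [hB, ← Matrix.mulVec_mulVec, ← Matrix.mulVec_mulVec, ← lift_act hg, hgy]
  have hbl : bl (B *ᵥ lift 0) (B *ᵥ lift 0) = bl (A *ᵥ lift y) (A *ᵥ lift y) := by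
    rw [hBe, bl_mulVec hg.inv.1]
  have htr : Matrix.trace (B * B) = Matrix.trace (A * A) := by
    have : B * B = (g⁻¹ : GLI).val * (A * A) * g.val := by
      rw [hB]
      calc (g⁻¹ : GLI).val * A * g.val * ((g⁻¹ : GLI).val * A * g.val)
          = (g⁻¹ : GLI).val * A * (g.val * (g⁻¹ : GLI).val) * A * g.val := by
            simp only [Matrix.mul_assoc]
        _ = (g⁻¹ : GLI).val * (A * A) * g.val := by
            rw [hig]; simp only [Matrix.mul_assoc, Matrix.mul_one]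
    rw [this, Matrix.mul_assoc, Matrix.trace_mul_comm, Matrix.mul_assoc, hig, Matrix.mul_one]
  rw [← hbl, ← htr, e]
  -- entries of `B`
  have hJB : ∀ i j : I, J i i * B i j = - (J j j * B j i) := by
    intro i j
    have h := hBso (Pi.single j 1) (Pi.single i 1)
    have key : ∀ (v : I → ℝ) (i : I), bl v (Pi.single i 1) = J i i * v i := by
      intro v i
      rw [bl_apply]
      rcases i with i | i
      · simp [J, Pi.single_apply, Sum.inl.injEq]
      · simp [J]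
    rw [key, bl_comm, key] at h
    simpa [Matrix.mulVec_single_one, Matrix.col_apply] using h
  have hoo : B o o = 0 := by
    have := hJB o o
    rw [J_oo] at this
    linarith
  have hoi : ∀ i : Fin 4, B o (Sum.inl i) = B (Sum.inl i) o := by
    intro i
    have h := hJB o (Sum.inl i)
    rw [J_oo] at h
    have h2 : J (Sum.inl i) (Sum.inl i) = 1 := by simp [J]
    rw [h2] at h
    linarith
  have hij : ∀ i j : Fin 4, B (Sum.inl i) (Sum.inl j) = - B (Sum.inl j) (Sum.inl i) := by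
    intro i j
    have h := hJB (Sum.inl i) (Sum.inl j)
    have h2 : ∀ i : Fin 4, J (Sum.inl i) (Sum.inl i) = 1 := by intro i; simp [J]
    rw [h2, h2] at h
    linarith
  have hfn : fn B ^ 2 = ∑ i, ∑ j, B i j ^ 2 :=
    Real.sq_sqrt (Finset.sum_nonneg (fun i _ => Finset.sum_nonneg (fun j _ => sq_nonneg _)))
  rw [hfn]
  have hb : bl (B *ᵥ lift 0) (B *ᵥ lift 0) = ∑ i : Fin 4, B (Sum.inl i) o ^ 2 := by
    rw [bl_apply]
    simp only [mulVec_lift_zero, hoo]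
    rw [mul_zero, sub_zero]
    exact Finset.sum_congr rfl (fun i _ => by ring)
  rw [hb]
  have ht : Matrix.trace (B * B) = ∑ i, ∑ j, B i j * B j i := by
    simp only [Matrix.trace, Matrix.diag_apply, Matrix.mul_apply]
  rw [ht]
  simp only [Fintype.sum_sum_type, Finset.univ_unique, Finset.sum_singleton]
  have e1 : (default : Unit) = () := rfl
  simp only [e1]
  change ∑ i : Fin 4, (∑ j : Fin 4, B (Sum.inl i) (Sum.inl j) ^ 2 + B (Sum.inl i) o ^ 2)
      + (∑ j : Fin 4, B o (Sum.inl j) ^ 2 + B o o ^ 2)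
    = 4 * ∑ i : Fin 4, B (Sum.inl i) o ^ 2
      - (∑ i : Fin 4, (∑ j : Fin 4, B (Sum.inl i) (Sum.inl j) * B (Sum.inl j) (Sum.inl i)
          + B (Sum.inl i) o * B o (Sum.inl i))
        + (∑ j : Fin 4, B o (Sum.inl j) * B (Sum.inl j) o + B o o * B o o))
  simp only [hoo, hoi, Finset.sum_add_distrib]
  have e2 : ∑ i : Fin 4, ∑ j : Fin 4, B (Sum.inl i) (Sum.inl j) * B (Sum.inl j) (Sum.inl i)
      = - ∑ i : Fin 4, ∑ j : Fin 4, B (Sum.inl i) (Sum.inl j) ^ 2 := by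
    rw [← Finset.sum_neg_distrib]
    refine Finset.sum_congr rfl (fun i _ => ?_)
    rw [← Finset.sum_neg_distrib]
    refine Finset.sum_congr rfl (fun j _ => ?_)
    rw [hij j i]; ring
  have e3 : ∑ i : Fin 4, B (Sum.inl i) o * B (Sum.inl i) o = ∑ i : Fin 4, B (Sum.inl i) o ^ 2 :=
    Finset.sum_congr rfl (fun i _ => by ring)
  rw [e2, e3]
  ring

namespace Z0

/-- general form of `Yg_close`: two matrices with inverses near `1` -/
theorem close_aux (y : X) {s : ℝ} (hs : s ≤ 2 / 5) {G Gi D Di : Mat}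
    (h1 : Gi * G = 1) (h2 : D * Di = 1) (hG : nrm y (Gi - 1) ≤ s) (hD : nrm y (Di - 1) ≤ s) :
    nrm y ((2 : ℝ) • (G - D) - ((G - Gi) - (D - Di))) ≤ nrm y (G - D) := by
  have hs0 : 0 ≤ s := (nrm_nonneg _ _).trans hG
  have e : Gi - Di = - (Gi * (G - D) * Di) := by
    rw [Matrix.mul_sub, Matrix.sub_mul, h1, Matrix.one_mul, Matrix.mul_assoc, h2, Matrix.mul_one]
    abel
  have e2 : (2 : ℝ) • (G - D) - ((G - Gi) - (D - Di))
      = - (((Gi - 1) * (G - D) + (Gi - 1) * (G - D) * (Di - 1)) + (G - D) * (Di - 1)) := by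
    have e3 : (G - Gi) - (D - Di) = (G - D) - (Gi - Di) := by abel
    rw [e3, e, two_smul]
    simp only [Matrix.mul_sub, Matrix.sub_mul, Matrix.mul_one, Matrix.one_mul]
    abel
  rw [e2, nrm_neg]
  have b1 : nrm y ((Gi - 1) * (G - D)) ≤ s * nrm y (G - D) :=
    (nrm_mul _ _ _).trans (mul_le_mul_of_nonneg_right hG (nrm_nonneg _ _))
  have b2 : nrm y ((Gi - 1) * (G - D) * (Di - 1)) ≤ s * nrm y (G - D) * s :=
    (nrm_mul _ _ _).trans (mul_le_mul b1 hD (nrm_nonneg _ _) (mul_nonneg hs0 (nrm_nonneg _ _)))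
  have b3 : nrm y ((G - D) * (Di - 1)) ≤ nrm y (G - D) * s :=
    (nrm_mul _ _ _).trans (mul_le_mul_of_nonneg_left hD (nrm_nonneg _ _))
  have hn := nrm_nonneg y (G - D)
  calc _ ≤ nrm y ((Gi - 1) * (G - D) + (Gi - 1) * (G - D) * (Di - 1))
          + nrm y ((G - D) * (Di - 1)) := nrm_add _ _ _
    _ ≤ (nrm y ((Gi - 1) * (G - D)) + nrm y ((Gi - 1) * (G - D) * (Di - 1)))
          + nrm y ((G - D) * (Di - 1)) := by
        gcongr
        exact nrm_add _ _ _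
    _ ≤ (s * nrm y (G - D) + s * nrm y (G - D) * s) + nrm y (G - D) * s := by gcongr
    _ = (2 * s + s * s) * nrm y (G - D) := by ring
    _ ≤ 1 * nrm y (G - D) := by
        gcongr
        nlinarith
    _ = nrm y (G - D) := one_mul _

end Z0

/-- near the identity `γ ↦ Yg γ` is bi-Lipschitz -/
theorem Yg_close : ∃ η₀ : ℝ, 0 < η₀ ∧ ∀ (y : X) (γ δ : GLI), InG γ → InG δ → sm y γ ≤ η₀ → sm y δ ≤ η₀ →
    nrm y (γ.val - δ.val) ≤ 2 * nrm y (Yg γ - Yg δ) ∧
    nrm y (Yg γ - Yg δ) ≤ 2 * nrm y (γ.val - δ.val) := by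
  refine ⟨2 / 5, by norm_num, ?_⟩
  intro y γ δ hγ hδ h1 h2
  have hi1 : (γ⁻¹ : GLI).val * γ.val = 1 := by
    rw [← Units.val_mul, inv_mul_cancel, Units.val_one]
  have hi2 : δ.val * (δ⁻¹ : GLI).val = 1 := by
    rw [← Units.val_mul, mul_inv_cancel, Units.val_one]
  have hc := Z0.close_aux y (s := 2 / 5) le_rfl hi1 hi2
    (by have := sm_inv hγ y; unfold sm at this h1; rw [this]; exact h1)
    (by have := sm_inv hδ y; unfold sm at this h2; rw [this]; exact h2)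
  set N := γ.val - δ.val with hN
  have e : (γ.val - (γ⁻¹ : GLI).val) - (δ.val - (δ⁻¹ : GLI).val) = (2 : ℝ) • (Yg γ - Yg δ) := by
    unfold Yg
    rw [← smul_sub, smul_smul]
    norm_num
  rw [e, ← smul_sub, nrm_smul] at hc
  have h20 : |(2 : ℝ)| = 2 := by norm_num
  rw [h20] at hc
  have t1 : nrm y N ≤ nrm y (N - (Yg γ - Yg δ)) + nrm y (Yg γ - Yg δ) := by
    have := nrm_add y (N - (Yg γ - Yg δ)) (Yg γ - Yg δ)
    rwa [sub_add_cancel] at this
  have t2 : nrm y (Yg γ - Yg δ) ≤ nrm y N + nrm y (N - (Yg γ - Yg δ)) := by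
    have := nrm_sub y N (N - (Yg γ - Yg δ))
    rwa [sub_sub_cancel] at this
  have hn := nrm_nonneg y N
  constructor
  · linarith
  · linarith

/-- [Z3''] commuting unipotents share their null direction -/
theorem wedge_commute {ξ w ξ' w' : I → ℝ} (h1 : NullF ξ) (h2 : bl ξ w = 0) (h3 : 0 < bl w w)
    (h1' : NullF ξ') (h2' : bl ξ' w' = 0) (h3' : 0 < bl w' w')
    (hc : wedge ξ w * wedge ξ' w' = wedge ξ' w' * wedge ξ w) : ∃ c : ℝ, 0 < c ∧ ξ' = c • ξ := by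
  -- `A² v = - ⟨ξ,v⟩ ⟨w,w⟩ ξ`
  have sq : ∀ (ξ w v : I → ℝ), bl ξ ξ = 0 → bl ξ w = 0 →
      wedge ξ w *ᵥ (wedge ξ w *ᵥ v) = (- (bl ξ v * bl w w)) • ξ := by
    intro ξ w v h1 h2
    rw [wedge_mulVec ξ w v, wedge_mulVec, bl_sub_right, bl_smul_right, bl_smul_right, h1, h2,
      bl_sub_right, bl_smul_right, bl_smul_right, bl_comm w ξ, h2]
    simp [neg_smul]
  -- choose `v` with `⟨ξ,v⟩ ≠ 0`
  set v : I → ℝ := lift 0 with hv
  have hξv : bl ξ v = - ξ o := by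
    rw [bl_apply]
    simp [hv, lift_zero]
  have hξv0 : bl ξ v ≠ 0 := by
    rw [hξv]; exact neg_ne_zero.2 h1.2.ne'
  -- `B ξ` is a multiple of `ξ`
  set A := wedge ξ w with hA
  set B := wedge ξ' w' with hB
  have hAB : ∀ u, A *ᵥ (B *ᵥ u) = B *ᵥ (A *ᵥ u) := by
    intro u
    rw [Matrix.mulVec_mulVec, Matrix.mulVec_mulVec, hc]
  have hBξ : (- (bl ξ v * bl w w)) • (B *ᵥ ξ) = (- (bl ξ (B *ᵥ v) * bl w w)) • ξ := by
    rw [← Matrix.mulVec_smul, ← sq ξ w v h1.1 h2, ← hA, ← hAB, ← hAB, hA, sq ξ w _ h1.1 h2]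
  have hne : - (bl ξ v * bl w w) ≠ 0 := neg_ne_zero.2 (mul_ne_zero hξv0 h3.ne')
  obtain ⟨c, hcB⟩ : ∃ c : ℝ, B *ᵥ ξ = c • ξ := by
    refine ⟨(- (bl ξ v * bl w w))⁻¹ * (- (bl ξ (B *ᵥ v) * bl w w)), ?_⟩
    rw [mul_smul, ← hBξ, smul_smul, inv_mul_cancel₀ hne, one_smul]
  have hBB : (- (bl ξ' ξ * bl w' w')) • ξ' = (c * c) • ξ := by
    rw [← sq ξ' w' ξ h1'.1 h2', ← hB, hcB, Matrix.mulVec_smul, hcB, smul_smul]
  have hz : bl ξ' ξ = 0 := by
    by_contra hne'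
    have h5 : bl ((- (bl ξ' ξ * bl w' w')) • ξ') ξ = 0 := by
      rw [hBB, bl_smul_left, h1.1, mul_zero]
    rw [bl_smul_left] at h5
    have h6 : bl ξ' ξ * bl w' w' * bl ξ' ξ ≠ 0 := mul_ne_zero (mul_ne_zero hne' h3'.ne') hne'
    apply h6
    linarith
  refine ⟨ξ' o / ξ o, div_pos h1'.2 h1.2, ?_⟩
  exact Z0.null_prop h1.1 h1.2.ne' h1'.1 hz

end Pool.Agent.helper21.WB
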