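import Pool.Agent.H48.WB.Z0

/-! WB-Z3: small unipotent elements of `O^+(4,1)`. -/

set_option autoImplicit false
open Matrix MeasureTheory

namespace Pool.Agent.helper21.WB

namespace Z3

theorem isSo_wedge (ξ w : I → ℝ) : IsSo (wedge ξ w) := by
  unfold IsSo wedge
  rw [Matrix.transpose_sub, Matrix.transpose_vecMulVec, Matrix.transpose_vecMulVec]
  ext i j
  simp only [Matrix.add_apply, Matrix.sub_mul, Matrix.mul_sub, Matrix.sub_apply, Matrix.zero_apply]
  have h1 : ∀ a b : I → ℝ, (Matrix.vecMulVec (J *ᵥ a) b * J) i j = (J *ᵥ a) i * (J *ᵥ b) j := by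
    intro a b
    rw [Matrix.mul_apply]
    have : (J *ᵥ b) j = ∑ k, b k * J k j := by
      rw [Matrix.mulVec, dotProduct]
      refine Finset.sum_congr rfl (fun k _ => ?_)
      have hJ : J j k = J k j := congrFun (congrFun J_transpose.symm j) k
      rw [hJ]; ring
    rw [this, Finset.mul_sum]
    refine Finset.sum_congr rfl (fun k _ => ?_)
    rw [Matrix.vecMulVec_apply]; ring
  have h2 : ∀ a b : I → ℝ, (J * Matrix.vecMulVec a (J *ᵥ b)) i j = (J *ᵥ a) i * (J *ᵥ b) j := by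
    intro a b
    rw [Matrix.mul_apply]
    have : (J *ᵥ a) i = ∑ k, J i k * a k := rfl
    rw [this, Finset.sum_mul]
    refine Finset.sum_congr rfl (fun k _ => ?_)
    rw [Matrix.vecMulVec_apply]; ring
  rw [h1, h1, h2, h2]
  ring

theorem sq_mulVec {ξ w : I → ℝ} (h1 : bl ξ ξ = 0) (h2 : bl ξ w = 0) (v : I → ℝ) :
    (wedge ξ w * wedge ξ w) *ᵥ v = (- (bl ξ v * bl w w)) • ξ := by
  rw [← Matrix.mulVec_mulVec, wedge_mulVec ξ w v, wedge_mulVec, bl_sub_right, bl_smul_right,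
    bl_smul_right, h1, h2, bl_sub_right, bl_smul_right, bl_smul_right, bl_comm w ξ, h2]
  simp [neg_smul]

theorem cube {ξ w : I → ℝ} (h1 : bl ξ ξ = 0) (h2 : bl ξ w = 0) :
    wedge ξ w * wedge ξ w * wedge ξ w = 0 := by
  have h : ∀ v, (wedge ξ w * wedge ξ w * wedge ξ w) *ᵥ v = 0 := by
    intro v
    rw [← Matrix.mulVec_mulVec, sq_mulVec h1 h2, wedge_mulVec, bl_sub_right, bl_smul_right,
      bl_smul_right, h1, h2]
    simp
  ext i j
  have := congrFun (h (Pi.single j 1)) i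
  simpa using this

theorem trace_sq {ξ w : I → ℝ} (h1 : bl ξ ξ = 0) (h2 : bl ξ w = 0) :
    Matrix.trace (wedge ξ w * wedge ξ w) = 0 := by
  -- `(wedge ξ w)² = - ⟨w,w⟩ ξ (Jξ)^T`
  have h : wedge ξ w * wedge ξ w = (- bl w w) • Matrix.vecMulVec ξ (J *ᵥ ξ) := by
    ext i j
    have e := congrFun (sq_mulVec h1 h2 (Pi.single j 1)) i
    have e' := congrFun (Z0.vmv_mulVec ξ ξ (Pi.single j 1)) i
    rw [Matrix.mulVec_single_one, Matrix.col_apply] at e e'
    rw [e, Matrix.smul_apply, e']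
    simp only [Pi.smul_apply, smul_eq_mul]
    ring
  rw [h, Matrix.trace_smul, Matrix.trace_vecMulVec]
  have : ξ ⬝ᵥ (J *ᵥ ξ) = bl ξ ξ := rfl
  rw [this, h1, smul_zero]

/-- trace of `v v^T J X` -/
theorem trace_R (v : I → ℝ) (M : Mat) :
    Matrix.trace (Matrix.vecMulVec v v * J * M) = bl v (M *ᵥ v) := by
  have e : Matrix.vecMulVec v v * J * M = Matrix.vecMulVec v (v ᵥ* (J * M)) := by
    rw [Matrix.mul_assoc]
    ext i j
    rw [Matrix.mul_apply, Matrix.vecMulVec_apply, Matrix.vecMul, dotProduct, Finset.mul_sum]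
    refine Finset.sum_congr rfl (fun k _ => ?_)
    rw [Matrix.vecMulVec_apply]; ring
  rw [e, Matrix.trace_vecMulVec]
  unfold bl
  rw [dotProduct_comm, ← Matrix.dotProduct_mulVec, Matrix.mulVec_mulVec]

/-- the square of the norm at `y` of `Y + Y²/2` for a unipotent direction -/
theorem trace_form {ξ w : I → ℝ} (h1 : bl ξ ξ = 0) (h2 : bl ξ w = 0) (y : X) :
    Matrix.trace (Qf y * (wedge ξ w + (1 / 2 : ℝ) • (wedge ξ w * wedge ξ w))ᵀ * Pf y
      * (wedge ξ w + (1 / 2 : ℝ) • (wedge ξ w * wedge ξ w)))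
    = 4 * (bl ξ (lift y)) ^ 2 * bl w w + (bl ξ (lift y)) ^ 4 * (bl w w) ^ 2 := by
  set v := lift y with hv
  set Y := wedge ξ w with hY
  have hso : IsSo Y := isSo_wedge ξ w
  have hT : Yᵀ * J = - (J * Y) := eq_neg_of_add_eq_zero_left hso
  have hJT : J * Yᵀ = - (Y * J) := by
    have h3 : J * (Yᵀ * J) * J = J * (- (J * Y)) * J := by rw [hT]
    have h4 : J * (Yᵀ * J) * J = J * Yᵀ := by
      rw [← Matrix.mul_assoc, Matrix.mul_assoc (J * Yᵀ), J_mul_J, Matrix.mul_one]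
    have h5 : J * (- (J * Y)) * J = - (Y * J) := by
      rw [Matrix.mul_neg, ← Matrix.mul_assoc, J_mul_J, Matrix.one_mul, Matrix.neg_mul]
    rw [← h4, h3, h5]
  set R := Matrix.vecMulVec v v * J with hR
  -- `Qf y = (1 + 2R) J`, `Pf y = J (1 + 2R)`
  have hQ : Qf y = (1 + (2:ℝ) • R) * J := by
    unfold Qf
    rw [Matrix.add_mul, Matrix.one_mul, Matrix.smul_mul, hR, Matrix.mul_assoc, J_mul_J,
      Matrix.mul_one, ← hv]
    simp [two_smul]
  have hP : Pf y = J * (1 + (2:ℝ) • R) := by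
    unfold Pf
    rw [Matrix.mul_add, Matrix.mul_one, Matrix.mul_smul, hR, ← Matrix.mul_assoc, ← hv]
    simp [two_smul]
  -- the adjoint
  have hadj : J * (Y + (1 / 2 : ℝ) • (Y * Y))ᵀ * J = - Y + (1 / 2 : ℝ) • (Y * Y) := by
    rw [Matrix.transpose_add, Matrix.transpose_smul, Matrix.transpose_mul, Matrix.mul_add,
      Matrix.add_mul, Matrix.mul_smul, Matrix.smul_mul]
    congr 1
    · rw [hJT, Matrix.neg_mul, Matrix.mul_assoc, J_mul_J, Matrix.mul_one]
    · congr 1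
      rw [← Matrix.mul_assoc, hJT, Matrix.neg_mul, Matrix.mul_assoc, hJT]
      simp only [Matrix.mul_neg, neg_neg, Matrix.mul_assoc, J_mul_J, Matrix.mul_one]
  set A := Y + (1 / 2 : ℝ) • (Y * Y) with hA
  set B := - Y + (1 / 2 : ℝ) • (Y * Y) with hB
  have c3 : Y * Y * Y = 0 := cube h1 h2
  have hBA : B * A = - (Y * Y) := by
    rw [hA, hB, Matrix.add_mul, Matrix.mul_add, Matrix.mul_add, Matrix.neg_mul, Matrix.neg_mul,
      Matrix.mul_smul, Matrix.smul_mul, Matrix.smul_mul, Matrix.mul_smul, ← Matrix.mul_assoc Y Y Y,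
      ← Matrix.mul_assoc (Y * Y) Y Y, c3]
    simp
  have hAB : A * B = - (Y * Y) := by
    rw [hA, hB, Matrix.add_mul, Matrix.mul_add, Matrix.mul_add, Matrix.mul_neg,
      Matrix.mul_smul, Matrix.smul_mul, Matrix.smul_mul, Matrix.mul_smul, Matrix.mul_neg,
      ← Matrix.mul_assoc Y Y Y, ← Matrix.mul_assoc (Y * Y) Y Y, c3]
    simp
  have hYv : bl v (Y *ᵥ v) = 0 := Z0.so_skew_self hso v
  have hYYv : bl v ((Y * Y) *ᵥ v) = - ((bl ξ v) ^ 2 * bl w w) := by
    rw [hY, sq_mulVec h1 h2, bl_smul_right, bl_comm v ξ]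
    ring
  have hAv : bl v (A *ᵥ v) = - ((bl ξ v) ^ 2 * bl w w) / 2 := by
    rw [hA, Matrix.add_mulVec, Matrix.smul_mulVec, bl_add_right, bl_smul_right, hYv, hYYv]
    ring
  have hBv : bl v (B *ᵥ v) = - ((bl ξ v) ^ 2 * bl w w) / 2 := by
    rw [hB, Matrix.add_mulVec, Matrix.smul_mulVec, Matrix.neg_mulVec, bl_add_right, bl_smul_right,
      hYYv]
    have : bl v (-(Y *ᵥ v)) = 0 := by
      have e := bl_smul_right (-1) v (Y *ᵥ v)
      rw [hYv] at e
      simpa using e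
    rw [this]; ring
  have e1 : Qf y * Aᵀ * Pf y * A = (1 + (2:ℝ) • R) * B * (1 + (2:ℝ) • R) * A := by
    rw [hQ, hP, ← hadj]
    simp only [Matrix.mul_assoc]
  rw [e1]
  have e2 : (1 + (2:ℝ) • R) * B * (1 + (2:ℝ) • R) * A
      = B * A + (2:ℝ) • (R * (B * A)) + (2:ℝ) • (B * (R * A)) + (4:ℝ) • (R * (B * (R * A))) := by
    simp only [Matrix.add_mul, Matrix.mul_add, Matrix.one_mul, Matrix.mul_one, Matrix.smul_mul,
      Matrix.mul_smul, Matrix.mul_assoc, smul_add, smul_smul]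
    have : (2:ℝ) * 2 = 4 := by norm_num
    rw [this]
    abel
  rw [e2]
  simp only [Matrix.trace_add, Matrix.trace_smul, smul_eq_mul]
  have t1 : Matrix.trace (B * A) = 0 := by
    rw [hBA, Matrix.trace_neg, trace_sq h1 h2, neg_zero]
  have t2 : Matrix.trace (R * (B * A)) = (bl ξ v) ^ 2 * bl w w := by
    rw [hR, trace_R, hBA, Matrix.neg_mulVec]
    have e := bl_smul_right (-1) v ((Y * Y) *ᵥ v)
    rw [hYYv] at e
    have : bl v (-((Y * Y) *ᵥ v)) = bl v ((-1 : ℝ) • ((Y * Y) *ᵥ v)) := by simp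
    rw [this, e]; ring
  have t3 : Matrix.trace (B * (R * A)) = (bl ξ v) ^ 2 * bl w w := by
    rw [Matrix.trace_mul_comm, Matrix.mul_assoc, hR, trace_R, hAB, Matrix.neg_mulVec]
    have e := bl_smul_right (-1) v ((Y * Y) *ᵥ v)
    rw [hYYv] at e
    have : bl v (-((Y * Y) *ᵥ v)) = bl v ((-1 : ℝ) • ((Y * Y) *ᵥ v)) := by simp
    rw [this, e]; ring
  have t4 : Matrix.trace (R * (B * (R * A))) = bl v (B *ᵥ v) * bl v (A *ᵥ v) := by
    have e3 : R * A = Matrix.vecMulVec v (v ᵥ* (J * A)) := by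
      rw [hR, Matrix.mul_assoc]
      ext i j
      rw [Matrix.mul_apply, Matrix.vecMulVec_apply, Matrix.vecMul, dotProduct, Finset.mul_sum]
      refine Finset.sum_congr rfl (fun k _ => ?_)
      rw [Matrix.vecMulVec_apply]; ring
    have e4 : (B * (R * A)) *ᵥ v = bl v (A *ᵥ v) • (B *ᵥ v) := by
      rw [e3, ← Matrix.mulVec_mulVec]
      have : Matrix.vecMulVec v (v ᵥ* (J * A)) *ᵥ v = bl v (A *ᵥ v) • v := by
        ext i
        simp only [Matrix.mulVec, Pi.smul_apply, smul_eq_mul]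
        have e5 : bl v (A *ᵥ v) = (v ᵥ* (J * A)) ⬝ᵥ v := by
          unfold bl
          rw [Matrix.mulVec_mulVec, Matrix.dotProduct_mulVec]
        show (fun j => Matrix.vecMulVec v (v ᵥ* (J * A)) i j) ⬝ᵥ v = bl v (A *ᵥ v) * v i
        rw [e5, dotProduct, dotProduct, Finset.sum_mul]
        refine Finset.sum_congr rfl (fun j _ => ?_)
        rw [Matrix.vecMulVec_apply]; ring
      rw [this, Matrix.mulVec_smul]
    rw [hR, trace_R, ← hR, e4, bl_smul_right]
    ring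
  rw [t1, t2, t3, t4, hAv, hBv]
  ring

/-- nilpotent elements of `so(4,1)` with `Y³ = 0` -/
theorem nilp {Y : Mat} (hY : IsSo Y) (h3 : Y * Y * Y = 0) (h0 : Y ≠ 0) :
    ∃ ξ w : I → ℝ, NullF ξ ∧ bl ξ w = 0 ∧ 0 < bl w w ∧ Y = wedge ξ w := by
  have hsk := fun v w => Z0.so_skew hY v w
  have h3v : ∀ v, Y *ᵥ (Y *ᵥ (Y *ᵥ v)) = 0 := by
    intro v
    rw [Matrix.mulVec_mulVec, Matrix.mulVec_mulVec, h3, Matrix.zero_mulVec]
  have b0l : ∀ v, bl 0 v = 0 := by intro v; rw [bl_apply]; simp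
  have b0r : ∀ v, bl v 0 = 0 := by intro v; rw [bl_comm, b0l]
  -- matrices are determined by their action
  have hext : ∀ A B : Mat, (∀ v, A *ᵥ v = B *ᵥ v) → A = B := by
    intro A B h
    ext i j
    have := congrFun (h (Pi.single j 1)) i
    simpa using this
  -- nondegeneracy
  have hnd : ∀ z : I → ℝ, z ≠ 0 → ∃ v, bl z v ≠ 0 := by
    intro z hz
    by_contra hcon
    push Not at hcon
    apply hz
    ext i
    have h := hcon (Pi.single i 1)
    rw [bl_apply] at h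
    rcases i with i | i
    · simpa [Pi.single_apply] using h
    · simpa [Pi.single_apply] using h
  by_cases hYY : ∀ v, Y *ᵥ (Y *ᵥ v) = 0
  · -- `Y² = 0` forces `Y = 0`
    exfalso
    apply h0
    by_contra _
    obtain ⟨v0, hv0⟩ : ∃ v0, Y *ᵥ v0 ≠ 0 := by
      by_contra hcon
      push Not at hcon
      exact h0 (hext _ _ (fun v => by rw [hcon v, Matrix.zero_mulVec]))
    set ξ := Y *ᵥ v0 with hξ
    have hiso : ∀ u v, bl (Y *ᵥ u) (Y *ᵥ v) = 0 := by
      intro u v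
      rw [hsk, hYY, b0r, neg_zero]
    have hξo : ξ o ≠ 0 := Z0.null_o_ne (hiso _ _) hv0
    have hf : ∀ v, Y *ᵥ v = ((Y *ᵥ v) o / ξ o) • ξ := fun v =>
      Z0.null_prop (hiso _ _) hξo (hiso _ _) (hiso _ _)
    obtain ⟨v1, hv1⟩ := hnd ξ hv0
    have hf1 : (Y *ᵥ v1) o / ξ o = 0 := by
      have h := Z0.so_skew_self hY v1
      rw [hf v1, bl_smul_right, bl_comm] at h
      exact (mul_eq_zero.1 h).resolve_right hv1
    have hall : ∀ v, (Y *ᵥ v) o / ξ o = 0 := by
      intro v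
      have h := hsk v v1
      rw [hf v, hf v1, hf1, zero_smul, b0r, bl_smul_left, neg_zero] at h
      exact (mul_eq_zero.1 h).resolve_right hv1
    exact hv0 (by rw [hξ, hf v0, hall v0, zero_smul])
  · push Not at hYY
    obtain ⟨v, hv⟩ := hYY
    set w0 := Y *ᵥ v with hw0
    set z := Y *ᵥ w0 with hz
    have hYz : Y *ᵥ z = 0 := h3v v
    have hzz : bl z z = 0 := by
      have : bl z z = - bl w0 (Y *ᵥ z) := by rw [hz, hsk]
      rw [this, hYz, b0r, neg_zero]
    have hw0z : bl w0 z = 0 := by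
      have : bl w0 z = - bl v (Y *ᵥ z) := by rw [hw0, hsk]
      rw [this, hYz, b0r, neg_zero]
    have hzo : z o ≠ 0 := Z0.null_o_ne hzz hv
    have hww : bl w0 w0 = - bl v z := by rw [hw0, hsk, ← hw0, ← hz]
    -- `w0` is spacelike
    have hpos : 0 < bl w0 w0 := by
      -- normalise the time coordinate of `w0` to zero by subtracting a multiple of `z`
      set u := w0 - (w0 o / z o) • z with hu
      have huo : u o = 0 := by
        simp only [hu, Pi.sub_apply, Pi.smul_apply, smul_eq_mul]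
        field_simp
        ring
      have huu : bl u u = bl w0 w0 := by
        rw [hu, bl_sub_left, bl_sub_right, bl_sub_right, bl_smul_left, bl_smul_right,
          bl_smul_left, bl_smul_right, hw0z, hzz, bl_comm z w0, hw0z]
        ring
      have hu0 : 0 ≤ bl u u := by
        rw [bl_apply, huo]
        simp only [mul_zero, sub_zero]
        exact Finset.sum_nonneg (fun i _ => mul_self_nonneg _)
      rcases hu0.lt_or_eq with h | h
      · rwa [huu] at h
      · exfalso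
        have : w0 = (w0 o / z o) • z := Z0.null_prop hzz hzo (by rw [← huu, ← h]) hw0z
        apply hv
        rw [hz, this, Matrix.mulVec_smul, hYz, smul_zero]
    have hvz : bl v z < 0 := by linarith
    have hzv : bl z v < 0 := by rw [bl_comm]; exact hvz
    -- `Y u` for `u ⊥ z`
    have hperp : ∀ u, bl z u = 0 → Y *ᵥ u = (- bl w0 u / bl z v) • z := by
      intro u hu
      -- first `Y² u = 0`
      have a1 : bl (Y *ᵥ (Y *ᵥ u)) (Y *ᵥ (Y *ᵥ u)) = 0 := by
        rw [hsk, h3v, b0r, neg_zero]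
      have a2 : bl (Y *ᵥ (Y *ᵥ u)) z = 0 := by
        rw [hsk, hYz, b0r, neg_zero]
      have a3 := Z0.null_prop hzz hzo a1 a2
      have a4 : bl (Y *ᵥ (Y *ᵥ u)) v = 0 := by
        rw [hsk, hsk, ← hw0, ← hz, neg_neg, bl_comm, hu]
      have a5 : (Y *ᵥ (Y *ᵥ u)) o / z o = 0 := by
        rw [a3, bl_smul_left] at a4
        exact (mul_eq_zero.1 a4).resolve_right hzv.ne
      have a6 : Y *ᵥ (Y *ᵥ u) = 0 := by rw [a3, a5, zero_smul]
      have a7 : bl (Y *ᵥ u) (Y *ᵥ u) = 0 := by rw [hsk, a6, b0r, neg_zero]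
      have a8 : bl (Y *ᵥ u) z = 0 := by rw [hsk, hYz, b0r, neg_zero]
      have a9 := Z0.null_prop hzz hzo a7 a8
      have a10 : bl (Y *ᵥ u) v = - bl w0 u := by rw [hsk, ← hw0, bl_comm]
      have a11 : (Y *ᵥ u) o / z o = - bl w0 u / bl z v := by
        rw [a9, bl_smul_left] at a10
        rw [eq_div_iff hzv.ne]
        exact a10
      rw [a9, a11]
    have hvv : bl w0 v = 0 := by rw [hw0, bl_comm]; exact Z0.so_skew_self hY v
    -- general formula
    have hgen : ∀ u, Y *ᵥ u = (bl z u / bl z v) • w0 - (bl w0 u / bl z v) • z := by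
      intro u
      set a := bl z u / bl z v with ha
      have e1 : bl z (u - a • v) = 0 := by
        rw [bl_sub_right, bl_smul_right, ha, div_mul_cancel₀ _ hzv.ne, sub_self]
      have e2 := hperp _ e1
      rw [Matrix.mulVec_sub, Matrix.mulVec_smul, ← hw0, bl_sub_right, bl_smul_right, hvv, mul_zero,
        sub_zero] at e2
      have e3 : Y *ᵥ u = a • w0 + (- bl w0 u / bl z v) • z := by
        rw [← e2]; abel
      rw [e3, neg_div, neg_smul, sub_eq_add_neg]
    -- choose the sign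
    rcases lt_or_gt_of_ne hzo with hneg | hpos'
    · refine ⟨(-1 : ℝ) • z, (-(1 / bl z v)) • w0, ⟨?_, ?_⟩, ?_, ?_, ?_⟩
      · rw [bl_smul_left, bl_smul_right, hzz]; ring
      · simp only [Pi.smul_apply, smul_eq_mul]; linarith
      · rw [bl_smul_left, bl_smul_right, bl_comm z w0, hw0z]; ring
      · rw [bl_smul_left, bl_smul_right]
        have : 0 < (1 / bl z v) * (1 / bl z v) := by
          have := (mul_self_pos (a := 1 / bl z v)).2 (by
            exact one_div_ne_zero hzv.ne)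
          exact this
        nlinarith
      · apply hext
        intro u
        rw [hgen u, wedge_mulVec, bl_smul_left, bl_smul_left]
        ext i
        simp only [Pi.sub_apply, Pi.smul_apply, smul_eq_mul]
        field_simp
    · refine ⟨z, (1 / bl z v) • w0, ⟨hzz, hpos'⟩, ?_, ?_, ?_⟩
      · rw [bl_smul_right, bl_comm z w0, hw0z]; ring
      · rw [bl_smul_left, bl_smul_right]
        have : 0 < (1 / bl z v) * (1 / bl z v) :=
          (mul_self_pos (a := 1 / bl z v)).2 (one_div_ne_zero hzv.ne)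
        nlinarith
      · apply hext
        intro u
        rw [hgen u, wedge_mulVec, bl_smul_left]
        ext i
        simp only [Pi.sub_apply, Pi.smul_apply, smul_eq_mul]
        field_simp

end Z3

/-- [Z3] elements near the identity are determined by `Yg` -/
theorem unip_of_wedge : ∃ η₀ : ℝ, 0 < η₀ ∧ ∀ (y : X) (γ : GLI) (ξ w : I → ℝ), InG γ → sm y γ ≤ η₀ →
    NullF ξ → bl ξ w = 0 → Yg γ = wedge ξ w →
    γ.val = 1 + wedge ξ w + (1 / 2 : ℝ) • (wedge ξ w * wedge ξ w) ∧ Unip γ ∧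
    sm y γ = Real.sqrt ((2 * |bl ξ (lift y)|) ^ 2 * bl w w
      + ((2 * |bl ξ (lift y)|) ^ 2 * bl w w) ^ 2 / 16) := by
  refine ⟨1 / 5, by norm_num, ?_⟩
  intro y γ ξ w hγ hs hξ hw hY
  set Y := wedge ξ w with hYd
  have c3 : Y * Y * Y = 0 := Z3.cube hξ.1 hw
  have hi1 : (γ⁻¹ : GLI).val * γ.val = 1 := by
    rw [← Units.val_mul, inv_mul_cancel, Units.val_one]
  have hsi : nrm y ((γ⁻¹ : GLI).val - 1) ≤ 1 / 5 := by
    have := sm_inv hγ y; unfold sm at this hs; rw [this]; exact hs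
  have hs' : nrm y (γ.val - 1) ≤ 1 / 5 := hs
  have hYn : nrm y Y ≤ 1 / 5 := by
    have e : Y = (1 / 2 : ℝ) • ((γ.val - 1) - ((γ⁻¹ : GLI).val - 1)) := by
      rw [← hY]
      unfold Yg
      congr 1
      abel
    rw [e, nrm_smul]
    have h1 := nrm_sub y (γ.val - 1) ((γ⁻¹ : GLI).val - 1)
    have h2 : |(1 / 2 : ℝ)| = 1 / 2 := by norm_num
    rw [h2]
    linarith
  set D : Mat := 1 + Y + (1 / 2 : ℝ) • (Y * Y) with hD
  set Di : Mat := 1 - Y + (1 / 2 : ℝ) • (Y * Y) with hDi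
  have hDDi : D * Di = 1 := by
    rw [hD, hDi]
    simp only [Matrix.add_mul, Matrix.mul_add, Matrix.mul_sub, Matrix.one_mul,
      Matrix.mul_one, Matrix.smul_mul, Matrix.mul_smul]
    rw [← Matrix.mul_assoc Y Y Y, ← Matrix.mul_assoc (Y * Y) Y Y, c3]
    simp only [Matrix.zero_mul, smul_zero, add_zero]
    have : (Y * Y : Mat) = (1 / 2 : ℝ) • (Y * Y) + (1 / 2 : ℝ) • (Y * Y) := by
      rw [← add_smul]; norm_num
    have h2 : (1:Mat) + Y + (1 / 2 : ℝ) • (Y * Y) - (Y + Y * Y) + (1 / 2 : ℝ) • (Y * Y)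
        = 1 + ((1 / 2 : ℝ) • (Y * Y) + (1 / 2 : ℝ) • (Y * Y)) - Y * Y := by abel
    have h3 : (1:Mat) + ((1 / 2 : ℝ) • (Y * Y) + (1 / 2 : ℝ) • (Y * Y)) - Y * Y = 1 := by
      rw [← this]; abel
    rw [h2, h3]
  have hDin : nrm y (Di - 1) ≤ 2 / 5 := by
    have e : Di - 1 = - (Y - (1 / 2 : ℝ) • (Y * Y)) := by rw [hDi]; abel
    rw [e, nrm_neg]
    have h1 := nrm_sub y Y ((1 / 2 : ℝ) • (Y * Y))
    have h2 := nrm_mul y Y Y
    have h3 : nrm y ((1 / 2 : ℝ) • (Y * Y)) = 1 / 2 * nrm y (Y * Y) := by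
      rw [nrm_smul]; norm_num
    have h4 := nrm_nonneg y Y
    nlinarith
  have hdiff : (γ.val - (γ⁻¹ : GLI).val) = D - Di := by
    have e1 : γ.val - (γ⁻¹ : GLI).val = (2:ℝ) • Yg γ := by
      unfold Yg
      rw [smul_smul]; norm_num
    rw [e1, hY, hD, hDi, two_smul]
    abel
  have hc := Z0.close_aux y (s := 2 / 5) le_rfl hi1 hDDi (hsi.trans (by norm_num)) hDin
  rw [hdiff, sub_self, sub_zero, nrm_smul] at hc
  have h20 : |(2 : ℝ)| = 2 := by norm_num
  rw [h20] at hc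
  have h0 : nrm y (γ.val - D) = 0 := by
    have := nrm_nonneg y (γ.val - D)
    linarith
  have hγD : γ.val = D := sub_eq_zero.1 ((nrm_eq_zero _ _).1 h0)
  refine ⟨hγD, ?_, ?_⟩
  · unfold Unip
    have e : γ.val - 1 = Y * (1 + (1 / 2 : ℝ) • Y) := by
      rw [hγD, hD, Matrix.mul_add, Matrix.mul_one, Matrix.mul_smul]
      abel
    have hcomm : Commute Y (1 + (1 / 2 : ℝ) • Y) := by
      unfold Commute SemiconjBy
      rw [Matrix.mul_add, Matrix.add_mul, Matrix.mul_one, Matrix.one_mul, Matrix.mul_smul,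
        Matrix.smul_mul]
    rw [e, hcomm.mul_pow]
    have : Y ^ 3 = 0 := by rw [pow_three', c3]
    rw [this, Matrix.zero_mul]
  · have e : γ.val - 1 = Y + (1 / 2 : ℝ) • (Y * Y) := by
      rw [hγD, hD]
      abel
    have h1 : sm y γ = Real.sqrt (Matrix.trace (Qf y * (γ.val - 1)ᵀ * Pf y * (γ.val - 1))) := rfl
    rw [h1, e, hYd, Z3.trace_form hξ.1 hw]
    congr 1
    rw [mul_pow, sq_abs]
    ring

/-- [Z3'] small unipotent elements are of this form -/
theorem wedge_of_unip : ∃ η₀ : ℝ, 0 < η₀ ∧ ∀ (y : X) (γ : GLI), InG γ → sm y γ ≤ η₀ → Unip γ → γ ≠ 1 →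
    ∃ ξ w : I → ℝ, NullF ξ ∧ bl ξ w = 0 ∧ 0 < bl w w ∧ Yg γ = wedge ξ w := by
  refine ⟨1, one_pos, ?_⟩
  intro y γ hγ _ hU h1
  obtain ⟨N, hN⟩ : ∃ N : Mat, N = γ.val - 1 := ⟨_, rfl⟩
  have hN3 : N * N * N = 0 := by
    have : N ^ 3 = 0 := by rw [hN]; exact hU
    rwa [pow_three'] at this
  have hγN : γ.val = 1 + N := by rw [hN]; abel
  have hinv : (γ⁻¹ : GLI).val = 1 - N + N * N := by
    have e : γ.val * (1 - N + N * N) = 1 := by
      rw [hγN]
      simp only [Matrix.add_mul, Matrix.mul_add, Matrix.mul_sub, Matrix.one_mul, Matrix.mul_one]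
      rw [← Matrix.mul_assoc N N N, hN3]
      abel
    have hi1 : (γ⁻¹ : GLI).val * γ.val = 1 := by
      rw [← Units.val_mul, inv_mul_cancel, Units.val_one]
    calc (γ⁻¹ : GLI).val = (γ⁻¹ : GLI).val * (γ.val * (1 - N + N * N)) := by rw [e, Matrix.mul_one]
      _ = 1 - N + N * N := by rw [← Matrix.mul_assoc, hi1, Matrix.one_mul]
  have hY : Yg γ = N - (1 / 2 : ℝ) • (N * N) := by
    unfold Yg
    rw [hinv, hγN]
    have : (1 : Mat) + N - (1 - N + N * N) = (2:ℝ) • N - N * N := by rw [two_smul]; abel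
    rw [this, smul_sub, smul_smul]
    norm_num
  apply Z3.nilp (isSo_Yg hγ)
  · have e : Yg γ = N * (1 - (1 / 2 : ℝ) • N) := by
      rw [hY, Matrix.mul_sub, Matrix.mul_one, Matrix.mul_smul]
    have hcomm : Commute N (1 - (1 / 2 : ℝ) • N) := by
      unfold Commute SemiconjBy
      rw [Matrix.mul_sub, Matrix.sub_mul, Matrix.mul_one, Matrix.one_mul, Matrix.mul_smul,
        Matrix.smul_mul]
    rw [← pow_three', e, hcomm.mul_pow, pow_three', hN3, Matrix.zero_mul]
  · intro h0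
    apply h1
    rw [hY] at h0
    have e1 : N = (1 / 2 : ℝ) • (N * N) := sub_eq_zero.1 h0
    have e2 : N * N = 0 := by
      calc N * N = N * ((1 / 2 : ℝ) • (N * N)) := by rw [← e1]
        _ = (1 / 2 : ℝ) • (N * N * N) := by rw [Matrix.mul_smul, Matrix.mul_assoc]
        _ = 0 := by rw [hN3, smul_zero]
    have e3 : N = 0 := by rw [e1, e2, smul_zero]
    apply Units.ext
    rw [hγN, e3, add_zero, Units.val_one]

end Pool.Agent.helper21.WB
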